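import Pool.Agent.H70.G3M.D

/-!
Poonen's strengthening of the union-closed sets conjecture holds for every family in which each element
lies in at most three generators.
-/

set_option autoImplicit false

namespace H70Off.AtMostThreeGenerators

/-- Let `A` be a nonempty finite union-closed family of finite sets that separates the points of its
union and is not the power set of its union.  Let `G` be a subfamily of `A` that generates `A`: every
member of `A` is the union of some members of `G` (for instance the family of all join-irreducible
members of `A`).  If every point of the union lies in at most three members of `G`, then some point lies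
in strictly more than half of the members of `A`. -/
theorem result {α : Type*} [DecidableEq α] (A G : Finset (Finset α)) (hne : A.Nonempty)
    (hunion : ∀ X ∈ A, ∀ Y ∈ A, X ∪ Y ∈ A)
    (hsep : ∀ x ∈ A.sup id, ∀ y ∈ A.sup id, x ≠ y →
      ∃ S ∈ A, (x ∈ S ∧ y ∉ S) ∨ (y ∈ S ∧ x ∉ S))
    (hpow : A ≠ (A.sup id).powerset)
    (hsub : G ⊆ A) (hgen : ∀ B ∈ A, ∃ F ⊆ G, F.sup id = B)
    (hthree : ∀ x ∈ A.sup id, (G.filter (fun B => x ∈ B)).card ≤ 3) :
    ∃ x ∈ A.sup id, A.card < 2 * (A.filter (fun S => x ∈ S)).card := by
  obtain ⟨x, hx, h⟩ := H70G3.main A G hne hunion hsep hpow hsub hgen (by convert hthree)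
  refine ⟨x, hx, ?_⟩
  convert h

end H70Off.AtMostThreeGenerators
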